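import Mathlib
import Pool.Agent.NH77.BB.Folner

set_option autoImplicit false

namespace Pool.Agent.Results.MP_fc7b8c_co.NotSharp

open Filter Topology Pool.Agent.NH77

/-- The doubling homomorphism `D g = 2 g`. -/
def dbl (G : Type) [AddCommGroup G] : G →+ G := nsmulAddMonoidHom 2

/-- `Φ` is a Følner sequence in `G`: `|Φ_N ∩ (g + Φ_N)| / |Φ_N| → 1` for every `g`. -/
def IsFolner {G : Type} [AddCommGroup G] (Φ : ℕ → Finset G) : Prop :=
  ∀ g : G, Tendsto (fun N => (((Φ N : Set G) ∩ (fun x => g + x) '' (Φ N : Set G)).ncard : ℝ) /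
    ((Φ N).card : ℝ)) atTop (𝓝 1)

/-- The upper density of `A` along `Φ`. -/
noncomputable def upperDensity {G : Type} (Φ : ℕ → Finset G) (A : Set G) : ℝ :=
  limsup (fun N => ((A ∩ (Φ N : Set G)).ncard : ℝ) / ((Φ N).card : ℝ)) atTop

/-- The doubling ratio of `Φ`: `liminf |Φ_N / 2 ∩ Φ_N| / |Φ_N|`. -/
noncomputable def doublingRatio {G : Type} [AddCommGroup G] (Φ : ℕ → Finset G) : ℝ :=
  liminf (fun N => (((dbl G) ⁻¹' (Φ N : Set G) ∩ (Φ N : Set G)).ncard : ℝ) /
    ((Φ N).card : ℝ)) atTop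

/-! ### Counting lemmas -/

open BB

theorem ncard_inter (A : Set G) (Φ : Finset G) :
    ((A ∩ (Φ : Set G)).ncard : ℝ) = ∑ x ∈ Φ, ind A x := by
  classical
  have : A ∩ (Φ : Set G) = ((Φ.filter (fun x => x ∈ A) : Finset G) : Set G) := by
    ext x
    simp [and_comm]
  rw [this, Set.ncard_coe_finset, Finset.card_filter]
  push_cast
  apply Finset.sum_congr rfl
  intro x _
  by_cases hx : x ∈ A
  · rw [if_pos hx, ind_of_mem hx]
  · rw [if_neg hx, ind_of_notMem hx]

theorem asInv_of_folner {Φ : ℕ → Finset G} (h : IsFolner Φ) : AsInv Φ Φ := by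
  intro g
  have h1 := h (-g)
  have h2 : Tendsto (fun N => 1 - (((Φ N : Set G) ∩ (fun x => -g + x) '' (Φ N : Set G)).ncard : ℝ) /
    ((Φ N).card : ℝ)) atTop (𝓝 (1 - 1)) := tendsto_const_nhds.sub h1
  rw [sub_self] at h2
  refine h2.congr' ?_
  have h3 : ∀ᶠ N in atTop, (0 : ℝ) < (((Φ N : Set G) ∩ (fun x => -g + x) '' (Φ N : Set G)).ncard : ℝ) /
    ((Φ N).card : ℝ) := h1.eventually_const_lt (by norm_num)
  filter_upwards [h3] with N hN
  have hn : ((Φ N).card : ℝ) ≠ 0 := by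
    intro h0
    rw [h0, div_zero] at hN
    exact lt_irrefl _ hN
  have hset : (Φ N : Set G) ∩ (fun x => -g + x) '' (Φ N : Set G) =
      (((Φ N).filter (fun x => x + g ∈ Φ N) : Finset G) : Set G) := by
    ext x
    simp only [Set.mem_inter_iff, Set.mem_image, Finset.mem_coe, Finset.mem_filter]
    constructor
    · rintro ⟨hx, y, hy, rfl⟩
      refine ⟨hx, ?_⟩
      rw [neg_add_cancel_comm]
      exact hy
    · rintro ⟨hx, hy⟩
      exact ⟨hx, x + g, hy, by abel⟩
  rw [hset, Set.ncard_coe_finset]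
  have hsum := Finset.card_filter_add_card_filter_not (s := Φ N) (fun x => x + g ∈ Φ N)
  rw [eq_div_iff hn, sub_mul, div_mul_cancel₀ _ hn, one_mul, ← hsum]
  push_cast
  ring

theorem TT_double {Φ : Finset G} {x : G} (hx : x ∈ TT Φ) : 2 • x ∈ TT Φ := by
  simp only [TT, Finset.mem_filter] at hx ⊢
  obtain ⟨h1, h2, h4⟩ := hx
  refine ⟨h2, ?_, ?_⟩
  · rw [← mul_nsmul']; exact h4
  · rw [four_two]; exact h1

theorem TT_sum_two (Φ : Finset G) (f : G → ℝ) : ∑ x ∈ TT Φ, f (2 • x) = ∑ x ∈ TT Φ, f x := by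
  apply Finset.sum_bij (fun x _ => 2 • x)
  · intro x hx; exact TT_double hx
  · intro x _ y _ h; exact inj_two h
  · intro y hy
    refine ⟨4 • y, ?_, two_four y⟩
    have := TT_double (TT_double hy)
    rw [← mul_nsmul'] at this
    exact this
  · intro x _; rfl

theorem count_bound (Φ : Finset G) (A : Set G) :
    ∑ x ∈ Φ, ind A x ≤ (Φ.card : ℝ) - (TT Φ).card - 2 * (SS Φ).card + ∑ x ∈ TT Φ, ind A x +
      ∑ x ∈ SS Φ, (ind A x + ind A (2 • x)) := by
  classical
  have hTsub : TT Φ ⊆ Φ := Finset.filter_subset _ _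
  have hSsub : SS Φ ⊆ Φ := Finset.filter_subset _ _
  set S2 := (SS Φ).image (fun x => 2 • x) with hS2
  have hS2sub : S2 ⊆ Φ := by
    intro y hy
    obtain ⟨x, hx, rfl⟩ := Finset.mem_image.mp hy
    exact (Finset.mem_filter.mp hx).2.1
  have d1 : Disjoint (TT Φ) (SS Φ) := by
    rw [Finset.disjoint_left]
    intro x hx hx'
    exact (Finset.mem_filter.mp hx').2.2 (Finset.mem_filter.mp hx).2.2
  have d2 : Disjoint (TT Φ ∪ SS Φ) S2 := by
    rw [Finset.disjoint_left]
    intro y hy hy'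
    obtain ⟨x, hx, rfl⟩ := Finset.mem_image.mp hy'
    have h4 : 4 • x ∉ Φ := (Finset.mem_filter.mp hx).2.2
    have e : 2 • (2 • x) = 4 • x := by rw [← mul_nsmul']
    rcases Finset.mem_union.mp hy with h | h
    · have := (Finset.mem_filter.mp h).2.1
      rw [e] at this
      exact h4 this
    · have := (Finset.mem_filter.mp h).2.1
      rw [e] at this
      exact h4 this
  have hsub : (TT Φ ∪ SS Φ) ∪ S2 ⊆ Φ :=
    Finset.union_subset (Finset.union_subset hTsub hSsub) hS2sub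
  have h1 : ∑ x ∈ (TT Φ ∪ SS Φ) ∪ S2, (1 - ind A x) ≤ ∑ x ∈ Φ, (1 - ind A x) :=
    Finset.sum_le_sum_of_subset_of_nonneg hsub (fun x _ _ => by linarith [ind_le_one A x])
  rw [Finset.sum_union d2, Finset.sum_union d1] at h1
  have h2 : ∑ x ∈ S2, (1 - ind A x) = ∑ x ∈ SS Φ, (1 - ind A (2 • x)) :=
    Finset.sum_image (fun x _ y _ h => inj_two h)
  rw [h2] at h1
  simp only [Finset.sum_sub_distrib, Finset.sum_const, nsmul_eq_mul, mul_one] at h1
  rw [Finset.sum_add_distrib]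
  linarith

/-- The quantitative theorem for `F_7^ω`: density above `1 - (2/3) α` suffices. -/
theorem main_seven (Φ : ℕ → Finset G) (hF : IsFolner Φ) (hα : 0 < doublingRatio Φ) (A : Set G)
    (hA : 1 - 2 / 3 * doublingRatio Φ < upperDensity Φ A) :
    ∃ B : Set G, B.Infinite ∧ ∀ b ∈ B, ∀ b' ∈ B, b + b' ∈ A := by
  by_contra hno
  set α := doublingRatio Φ with hαdef
  -- choose intermediate constants
  obtain ⟨c, hc1, hc2⟩ := exists_between hA
  have hcα : 3 / 2 * (1 - c) < α := by linarith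
  obtain ⟨β, hβ1, hβ2⟩ := exists_between hcα
  set a : ℕ → ℝ := fun N => ((A ∩ (Φ N : Set G)).ncard : ℝ) / ((Φ N).card : ℝ) with ha
  set al : ℕ → ℝ := fun N => (((dbl G) ⁻¹' (Φ N : Set G) ∩ (Φ N : Set G)).ncard : ℝ) /
    ((Φ N).card : ℝ) with hal
  have hratio : ∀ (X : Set G) (N : ℕ), ((X ∩ (Φ N : Set G)).ncard : ℝ) / ((Φ N).card : ℝ) ≤ 1 := by
    intro X N
    rw [ncard_inter]
    have := sum_div_bound (Finset.Subset.refl (Φ N)) (f := ind X) zero_le_one (fun x => by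
      rw [abs_of_nonneg (ind_nonneg _ _)]; exact ind_le_one _ _)
    exact (le_abs_self _).trans this
  have ha0 : ∀ N, 0 ≤ a N := fun N => by simp only [ha]; positivity
  have hal0 : ∀ N, 0 ≤ al N := fun N => by simp only [hal]; positivity
  have hfreq : ∃ᶠ N in atTop, c < a N := by
    apply Filter.frequently_lt_of_lt_limsup _ hc2
    exact Filter.isCoboundedUnder_le_of_le atTop (x := 0) (fun N => ha0 N)
  have hev : ∀ᶠ N in atTop, β < al N := by
    have hbd : IsBoundedUnder (fun x y : ℝ => x ≥ y) atTop al :=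
      Filter.isBoundedUnder_of ⟨0, fun N => hal0 N⟩
    exact Filter.eventually_lt_of_lt_liminf hβ2 hbd
  -- an ultrafilter
  have hne : NeBot (atTop ⊓ 𝓟 {N | c < a N}) := by
    rw [← Filter.frequently_mem_iff_neBot]
    exact hfreq
  set V : Ultrafilter ℕ := Ultrafilter.of (atTop ⊓ 𝓟 {N | c < a N}) with hVdef
  have hV : (V : Filter ℕ) ≤ atTop ⊓ 𝓟 {N | c < a N} := Ultrafilter.of_le _
  have hVtop : (V : Filter ℕ) ≤ atTop := hV.trans inf_le_left
  have hVa : ∀ᶠ N in (V : Filter ℕ), c < a N := by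
    have : {N | c < a N} ∈ (atTop ⊓ 𝓟 {N | c < a N} : Filter ℕ) :=
      Filter.mem_inf_of_right (Filter.mem_principal_self _)
    exact hV this
  have hVal : ∀ᶠ N in (V : Filter ℕ), β < al N := hVtop hev
  -- the sequences
  have hTsub : ∀ N, TT (Φ N) ⊆ Φ N := fun N => Finset.filter_subset _ _
  have hSsub : ∀ N, SS (Φ N) ⊆ Φ N := fun N => Finset.filter_subset _ _
  have htot : ∀ x, |ind A x + ind {x | 2 • x ∈ A} x + ind {x | 4 • x ∈ A} x| ≤ 3 := by
    intro x
    have h1 := ind_le_one A x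
    have h2 := ind_le_one {x | 2 • x ∈ A} x
    have h4 := ind_le_one {x | 4 • x ∈ A} x
    have h1' := ind_nonneg A x
    have h2' := ind_nonneg {x | 2 • x ∈ A} x
    have h4' := ind_nonneg {x | 4 • x ∈ A} x
    rw [abs_of_nonneg (by linarith)]
    linarith
  have hone : ∀ x : G, |(fun _ : G => (1:ℝ)) x| ≤ 1 := fun x => by simp
  have hcardsum : ∀ Ψ : Finset G, (Ψ.card : ℝ) = ∑ x ∈ Ψ, (fun _ : G => (1:ℝ)) x := by
    intro Ψ; simp
  have tT : Tendsto (fun N => ((TT (Φ N)).card : ℝ) / (Φ N).card) V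
      (𝓝 (ulim V (fun N => ((TT (Φ N)).card : ℝ) / (Φ N).card))) :=
    tendsto_ulim V (C := 1) (fun N => by
      rw [hcardsum (TT (Φ N))]; exact sum_div_bound (hTsub N) zero_le_one hone)
  have tS : Tendsto (fun N => ((SS (Φ N)).card : ℝ) / (Φ N).card) V
      (𝓝 (ulim V (fun N => ((SS (Φ N)).card : ℝ) / (Φ N).card))) :=
    tendsto_ulim V (C := 1) (fun N => by
      rw [hcardsum (SS (Φ N))]; exact sum_div_bound (hSsub N) zero_le_one hone)
  have tLT : Tendsto (fun N => (∑ x ∈ TT (Φ N), (ind A x + ind {x | 2 • x ∈ A} x +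
      ind {x | 4 • x ∈ A} x)) / ((Φ N).card : ℝ)) V (𝓝 (ulim V (fun N => (∑ x ∈ TT (Φ N),
      (ind A x + ind {x | 2 • x ∈ A} x + ind {x | 4 • x ∈ A} x)) / ((Φ N).card : ℝ)))) :=
    tendsto_ulim V (C := 3) (fun N => sum_div_bound (hTsub N) (by norm_num) htot)
  have tLS : Tendsto (fun N => (∑ x ∈ SS (Φ N), (ind A x + ind {x | 2 • x ∈ A} x +
      ind {x | 4 • x ∈ A} x)) / ((Φ N).card : ℝ)) V (𝓝 (ulim V (fun N => (∑ x ∈ SS (Φ N),
      (ind A x + ind {x | 2 • x ∈ A} x + ind {x | 4 • x ∈ A} x)) / ((Φ N).card : ℝ)))) :=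
    tendsto_ulim V (C := 3) (fun N => sum_div_bound (hSsub N) (by norm_num) htot)
  have hAs := asInv_of_folner hF
  have kT := total_le V hVtop hTsub (asInv_TT hAs) A hno tT tLT
  have kS := total_le V hVtop hSsub (asInv_SS hAs) A hno tS tLS
  set τ := ulim V (fun N => ((TT (Φ N)).card : ℝ) / (Φ N).card) with hτ
  set σ := ulim V (fun N => ((SS (Φ N)).card : ℝ) / (Φ N).card) with hσ
  set LT := ulim V (fun N => (∑ x ∈ TT (Φ N),
      (ind A x + ind {x | 2 • x ∈ A} x + ind {x | 4 • x ∈ A} x)) / ((Φ N).card : ℝ)) with hLT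
  set LS := ulim V (fun N => (∑ x ∈ SS (Φ N),
      (ind A x + ind {x | 2 • x ∈ A} x + ind {x | 4 • x ∈ A} x)) / ((Φ N).card : ℝ)) with hLS
  have hσ0 : 0 ≤ σ := ge_of_tendsto' tS (fun N => by positivity)
  -- pointwise upper bound for a
  have hupper : ∀ N, a N ≤ 1 - ((TT (Φ N)).card : ℝ) / (Φ N).card -
      2 * (((SS (Φ N)).card : ℝ) / (Φ N).card) +
      1 / 3 * ((∑ x ∈ TT (Φ N), (ind A x + ind {x | 2 • x ∈ A} x +
      ind {x | 4 • x ∈ A} x)) / ((Φ N).card : ℝ)) +
      (∑ x ∈ SS (Φ N), (ind A x + ind {x | 2 • x ∈ A} x +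
      ind {x | 4 • x ∈ A} x)) / ((Φ N).card : ℝ) := by
    intro N
    have e3 : ∑ x ∈ TT (Φ N), (ind A x + ind {x | 2 • x ∈ A} x + ind {x | 4 • x ∈ A} x) =
        3 * ∑ x ∈ TT (Φ N), ind A x := by
      have h2 : ∑ x ∈ TT (Φ N), ind {x | 2 • x ∈ A} x = ∑ x ∈ TT (Φ N), ind A x :=
        TT_sum_two (Φ N) (ind A)
      have h4 : ∑ x ∈ TT (Φ N), ind {x | 4 • x ∈ A} x = ∑ x ∈ TT (Φ N), ind A x := by
        rw [← h2, ← TT_sum_two (Φ N) (ind {x | 2 • x ∈ A})]
        apply Finset.sum_congr rfl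
        intro x _
        have : (x ∈ {x : G | 4 • x ∈ A}) ↔ (2 • x ∈ {x : G | 2 • x ∈ A}) := by
          show 4 • x ∈ A ↔ 2 • (2 • x) ∈ A
          rw [← mul_nsmul']
        by_cases hx : x ∈ {x : G | 4 • x ∈ A}
        · rw [ind_of_mem hx, ind_of_mem (this.mp hx)]
        · rw [ind_of_notMem hx, ind_of_notMem (fun h => hx (this.mpr h))]
      rw [Finset.sum_add_distrib, Finset.sum_add_distrib, h2, h4]
      ring
    have e4 : ∑ x ∈ SS (Φ N), (ind A x + ind A (2 • x)) ≤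
        ∑ x ∈ SS (Φ N), (ind A x + ind {x | 2 • x ∈ A} x + ind {x | 4 • x ∈ A} x) := by
      apply Finset.sum_le_sum
      intro x _
      have h1 : ind {x | 2 • x ∈ A} x = ind A (2 • x) := rfl
      have h2 := ind_nonneg {x | 4 • x ∈ A} x
      linarith
    have e5 := count_bound (Φ N) A
    rw [e3]
    simp only [ha]
    rw [ncard_inter]
    rcases Nat.eq_zero_or_pos (Φ N).card with h | h
    · rw [h]; simp
    · have h3 : (0:ℝ) < (Φ N).card := by exact_mod_cast h
      rw [div_le_iff₀ h3]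
      have : (1 - ((TT (Φ N)).card : ℝ) / (Φ N).card - 2 * (((SS (Φ N)).card : ℝ) / (Φ N).card) +
          1 / 3 * (3 * ∑ x ∈ TT (Φ N), ind A x) / ((Φ N).card : ℝ) +
          (∑ x ∈ SS (Φ N), (ind A x + ind {x | 2 • x ∈ A} x +
          ind {x | 4 • x ∈ A} x)) / ((Φ N).card : ℝ)) * (Φ N).card =
          ((Φ N).card : ℝ) - (TT (Φ N)).card - 2 * (SS (Φ N)).card + ∑ x ∈ TT (Φ N), ind A x +
          ∑ x ∈ SS (Φ N), (ind A x + ind {x | 2 • x ∈ A} x + ind {x | 4 • x ∈ A} x) := by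
        field_simp
      rw [mul_div_assoc] at this
      rw [this]
      linarith
  have h1 : c ≤ 1 - τ - 2 * σ + 1 / 3 * LT + LS := by
    have hl : Tendsto (fun N => 1 - ((TT (Φ N)).card : ℝ) / (Φ N).card -
      2 * (((SS (Φ N)).card : ℝ) / (Φ N).card) +
      1 / 3 * ((∑ x ∈ TT (Φ N), (ind A x + ind {x | 2 • x ∈ A} x +
      ind {x | 4 • x ∈ A} x)) / ((Φ N).card : ℝ)) +
      (∑ x ∈ SS (Φ N), (ind A x + ind {x | 2 • x ∈ A} x +
      ind {x | 4 • x ∈ A} x)) / ((Φ N).card : ℝ)) V (𝓝 (1 - τ - 2 * σ + 1 / 3 * LT + LS)) :=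
      (((tendsto_const_nhds.sub tT).sub (tS.const_mul 2)).add (tLT.const_mul (1 / 3))).add tLS
    refine ge_of_tendsto hl ?_
    filter_upwards [hVa] with N hN
    exact hN.le.trans (hupper N)
  have h2 : β ≤ τ + σ := by
    refine ge_of_tendsto (tT.add tS) ?_
    filter_upwards [hVal] with N hN
    refine hN.le.trans (le_of_eq ?_)
    simp only [hal]
    rw [← add_div]
    congr 1
    have hset : (dbl G) ⁻¹' (Φ N : Set G) ∩ (Φ N : Set G) =
        (((Φ N).filter (fun x => 2 • x ∈ Φ N) : Finset G) : Set G) := by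
      ext x
      simp only [Set.mem_inter_iff, Set.mem_preimage, Finset.mem_coe, Finset.mem_filter]
      constructor
      · rintro ⟨h1, h2⟩; exact ⟨h2, h1⟩
      · rintro ⟨h1, h2⟩; exact ⟨h2, h1⟩
    rw [hset, Set.ncard_coe_finset]
    have := Finset.card_filter_add_card_filter_not (s := (Φ N).filter (fun x => 2 • x ∈ Φ N))
      (fun x => 4 • x ∈ Φ N)
    rw [Finset.filter_filter, Finset.filter_filter] at this
    rw [← this]
    push_cast
    rfl
  linarith

theorem dbl_bij : Function.Bijective (dbl G) := by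
  constructor
  · intro x y h
    exact inj_two h
  · intro y
    exact ⟨4 • y, two_four y⟩

/-- Negative answer to Q1: there is a countably infinite abelian group `G` with `[G : 2G]` and
`|ker D|` finite, such that for every Følner sequence `Φ` with `α_Φ > 0` and every `A` with
upper density exactly `1 - α_Φ / (ℓ + r)`, the set `A` contains `B + B` for some infinite `B`. -/
theorem result : ∃ (G : Type) (_ : AddCommGroup G), Countable G ∧ Infinite G ∧
    (dbl G).range.index ≠ 0 ∧ Finite (dbl G).ker ∧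
    ∀ Φ : ℕ → Finset G, IsFolner Φ → 0 < doublingRatio Φ →
      ∀ A : Set G, upperDensity Φ A =
          1 - doublingRatio Φ / ((dbl G).range.index + Nat.card (dbl G).ker : ℝ) →
        ∃ B : Set G, B.Infinite ∧ ∀ b ∈ B, ∀ b' ∈ B, b + b' ∈ A := by
  have hidx : (dbl BB.G).range.index = 1 := by
    rw [AddSubgroup.index_eq_one, AddMonoidHom.range_eq_top]
    exact dbl_bij.2
  have hker : (dbl BB.G).ker = ⊥ := by
    rw [AddMonoidHom.ker_eq_bot_iff]
    exact dbl_bij.1
  have hcard : Nat.card (dbl BB.G).ker = 1 := by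
    rw [hker]
    simp
  have hinf : Infinite BB.G := by
    apply Infinite.of_injective (fun i : ℕ => (Finsupp.single i (1 : ZMod 7) : BB.G))
    exact Finsupp.single_left_injective (by decide)
  have hcount : Countable BB.G := by
    unfold BB.G
    infer_instance
  refine ⟨BB.G, inferInstance, hcount, hinf, ?_, ?_, ?_⟩
  · rw [hidx]; norm_num
  · rw [hker]; infer_instance
  · intro Φ hF hα A hA
    rw [hidx, hcard] at hA
    apply main_seven Φ hF hα A
    rw [hA]
    push_cast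
    linarith

end Pool.Agent.Results.MP_fc7b8c_co.NotSharp
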